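import Pool.Agent.R904.TB.Lin
import Pool.Agent.Z125.UN.Sym
import Pool.Agent.Y116.UV.Graph

/-!
# Motivic homology, étale homology and the regulator, formally
-/

set_option autoImplicit false

open CategoryTheory CategoryTheory.Limits AlgebraicGeometry MvPolynomial
open Pool.Agent.Y116.UV Pool.Agent.Z125.UN

namespace Pool.Agent.R904.TB

/-- isomorphic regulators -/
def RegObj.IsIso {F : Type} [Field F] (A B : RegObj F) : Prop :=
  ∃ (s : A.Hom B) (p : B.Hom A), ((∀ x, p.m (s.m x) = x) ∧ ∀ x, p.v (s.v x) = x) ∧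
    (∀ x, s.m (p.m x) = x) ∧ ∀ x, s.v (p.v x) = x

/-- `j` is an open immersion onto the complement of `f = 0` -/
def IsCompl {k : Type} [Field k] {A : Type} [CommRing A] [Algebra k A] {m : ℕ} (f : Fin m → A)
    {U : Sch k} (j : U ⟶ aff k A) : Prop :=
  IsOpenImmersion j.left ∧ Set.range j.left = {x : PrimeSpectrum A | ∃ l, f l ∉ x.asIdeal}

/-- the affine bundle `Spec A[w] / (∑ f_l w_l - 1)` over the complement of `f = 0` (Jouanolou) -/
noncomputable abbrev jouS (k : Type) [Field k] {A : Type} [CommRing A] [Algebra k A] {m : ℕ}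
    (f : Fin m → A) : Sch k := aff k (Jou f)

/-- the scheme `Spec A × 𝔾_m` -/
noncomputable abbrev laurS (k A : Type) [Field k] [CommRing A] [Algebra k A] : Sch k :=
  aff k (LaurentPolynomial A)

/-- the long exact sequence `H_i(Z) → H_i(X) → H_i(U) → H_{i-1}(Z) → …`, compatible with the
regulators and the Frobenius maps -/
def LocSeq {F : Type} [Field F] (Z X U : ℤ → RegObj F) : Prop :=
  ∃ (a : ∀ i, (Z i).Hom (X i)) (b : ∀ i, (X i).Hom (U i)) (d : ∀ i, (U (i + 1)).Hom (Z i)),
    (∀ i, RegObj.Exact (a i) (b i)) ∧ (∀ i, RegObj.Exact (b (i + 1)) (d i)) ∧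
    ∀ i, RegObj.Exact (d i) (a i)

/-- The standard properties of the regulators `H_i^M(X, ℚ(j)) ⊗ ℚ_ℓ → H_i(X_k̄, ℚ_ℓ(j))` of separated
schemes of finite type over the finite field `k`; here `F = ℚ_ℓ`.

* `localization`: the long exact sequences of motivic and étale homology;
* `bundle`: for the affine bundle of Jouanolou over `U` with fibre `𝔸^(m-1)`, the homology in bidegree
  `(i + 2(m-1), j + (m-1))` of the total space is the one of `U` in bidegree `(i, j)`;
* `torus`: the homology of `X` in bidegree `(i, j)` is a direct summand of the homology of `X × 𝔾_m` in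
  bidegree `(i + 2, j + 1)`;
* `point`: `TB` is true for `Spec k` (Quillen);
* `curves`: `TB` is true for smooth curves (Weil, Harder, Soulé). -/
structure Theory (k : Type) [Field k] (F : Type) [Field F] where
  obj : ℤ → ℤ → Sch k → RegObj F
  iso : ∀ (i j : ℤ) {X Y : Sch k}, FT True X → Nonempty (X ≅ Y) → (obj i j X).IsIso (obj i j Y)
  localization : ∀ (w : ℤ) {Z X U : Sch k} (i : Z ⟶ X) (j : U ⟶ X), FT True X → IsTriple i j →
    LocSeq (fun n => obj n w Z) (fun n => obj n w X) (fun n => obj n w U)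
  bundle : ∀ (i j : ℤ) (A : Type) [CommRing A] [Algebra k A] [Algebra.FiniteType k A] (m : ℕ)
    (f : Fin m → A) (U : Sch k) (t : U ⟶ aff k A), IsCompl f t →
    (obj i j U).IsIso (obj (i + 2 * (m - 1 : ℕ)) (j + (m - 1 : ℕ)) (jouS k f))
  torus : ∀ (i j : ℤ) (A : Type) [CommRing A] [Algebra k A] [Algebra.FiniteType k A],
    (obj i j (aff k A)).IsRetract (obj (i + 2) (j + 1) (laurS k A))
  point : ∀ i j : ℤ, (obj i j (aff k k)).TB
  curves : ∀ X : Sch k, FT True X → Smooth X.hom → topologicalKrullDim X.left ≤ 1 →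
    ∀ i j : ℤ, (obj i j X).TB

/-- `TB(X)`: for all `i`, `j` the regulator is an isomorphism onto the invariants and the eigenvalue
`1` of the Frobenius is semisimple. -/
def Theory.TB {k : Type} [Field k] {F : Type} [Field F] (H : Theory k F) (X : Sch k) : Prop :=
  ∀ i j : ℤ, (H.obj i j X).TB

/-- `TB(X)` for all smooth separated schemes `X` of finite type over `k` and of dimension at most
`d` -/
def Theory.SmoothDim {k : Type} [Field k] {F : Type} [Field F] (H : Theory k F) (d : ℕ) : Prop :=
  ∀ X : Sch k, FT True X → Smooth X.hom → topologicalKrullDim X.left ≤ d → H.TB X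

/-- `TB(X)` for the hypersurfaces `T(x, y, z) = 1`, for all trilinear forms `T` over `k` such that one of
the three blocks of variables has at most `m` variables -/
def Theory.Block {k : Type} [Field k] {F : Type} [Field F] (H : Theory k F) (m : ℕ) : Prop :=
  ∀ (a b c : ℕ) (T : Fin a → Fin b → Fin c → k), (a ≤ m ∨ b ≤ m ∨ c ≤ m) → H.TB (hypS T)

end Pool.Agent.R904.TB
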