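import Mathlib

/-!
# Linear algebra for the conjecture TB

Vector spaces `M`, `V` (motivic homology tensored with `ℚ_ℓ`, étale homology), an endomorphism `φ` of
`V` (Frobenius) and a linear map `r : M → V` (the regulator) with `φ ∘ r = r`.
-/

set_option autoImplicit false

namespace Pool.Agent.R904.TB

/-- a regulator `r : M → V` to a finite-dimensional space with an endomorphism `φ`; the image of `r`
consists of invariants -/
structure RegObj (F : Type) [Field F] where
  M : Type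
  V : Type
  [gM : AddCommGroup M]
  [mM : Module F M]
  [gV : AddCommGroup V]
  [mV : Module F V]
  [fV : FiniteDimensional F V]
  φ : V →ₗ[F] V
  r : M →ₗ[F] V
  inv : ∀ x, φ (r x) = r x

attribute [instance] RegObj.gM RegObj.mM RegObj.gV RegObj.mV RegObj.fV

variable {F : Type} [Field F]

/-- `r` is an isomorphism onto the invariants, and the eigenvalue `1` of `φ` is semisimple. -/
structure RegObj.TB (A : RegObj F) : Prop where
  /-- the regulator is injective -/
  inj : Function.Injective A.r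
  /-- its image are the invariants -/
  surj : ∀ v : A.V, A.φ v = v → ∃ x, A.r x = v
  /-- the generalized eigenspace of the eigenvalue `1` consists of invariants -/
  semisimple : ∀ (n : ℕ) (v : A.V), ((A.φ - 1) ^ n) v = 0 → A.φ v = v

/-- maps compatible with the regulators and the endomorphisms -/
structure RegObj.Hom (A B : RegObj F) where
  m : A.M →ₗ[F] B.M
  v : A.V →ₗ[F] B.V
  comm_r : ∀ x, B.r (m x) = v (A.r x)
  comm_φ : ∀ x, B.φ (v x) = v (A.φ x)

/-- exactness of both sequences -/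
def RegObj.Exact {A B C : RegObj F} (f : A.Hom B) (g : B.Hom C) : Prop :=
  Function.Exact f.m g.m ∧ Function.Exact f.v g.v

/-- `A` is a direct summand of `B`, compatibly with the regulators and the endomorphisms -/
def RegObj.IsRetract (A B : RegObj F) : Prop :=
  ∃ (s : A.Hom B) (p : B.Hom A), (∀ x, p.m (s.m x) = x) ∧ ∀ x, p.v (s.v x) = x

section

variable (A : RegObj F)

/-- the generalized eigenspace -/
def RegObj.gen : Submodule F A.V := ⨆ n : ℕ, LinearMap.ker ((A.φ - 1) ^ n)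

/-- its complement -/
def RegObj.rest : Submodule F A.V := ⨅ n : ℕ, LinearMap.range ((A.φ - 1) ^ n)

theorem RegObj.isCompl : IsCompl A.gen A.rest :=
  LinearMap.isCompl_iSup_ker_pow_iInf_range_pow (A.φ - 1)

theorem mem_gen {v : A.V} : v ∈ A.gen ↔ ∃ n : ℕ, ((A.φ - 1) ^ n) v = 0 := by
  unfold RegObj.gen
  rw [Submodule.mem_iSup_of_directed]
  · rfl
  · intro m n
    refine ⟨m + n, ?_, ?_⟩
    · intro x hx
      rw [LinearMap.mem_ker] at hx ⊢
      rw [add_comm, pow_add]
      change ((A.φ - 1) ^ n) (((A.φ - 1) ^ m) x) = 0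
      rw [hx, map_zero]
    · intro x hx
      rw [LinearMap.mem_ker] at hx ⊢
      rw [pow_add]
      change ((A.φ - 1) ^ m) (((A.φ - 1) ^ n) x) = 0
      rw [hx, map_zero]

theorem RegObj.sub_one (v : A.V) : (A.φ - 1) v = A.φ v - v := rfl

theorem gen_of_inv {v : A.V} (h : A.φ v = v) : v ∈ A.gen := by
  rw [mem_gen]
  refine ⟨1, ?_⟩
  rw [pow_one, A.sub_one, h, sub_self]

theorem r_mem (x : A.M) : A.r x ∈ A.gen := gen_of_inv A (A.inv x)

/-- `TB` is the bijectivity of the regulator to the generalized eigenspace -/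
theorem tb_iff : A.TB ↔ Function.Injective A.r ∧ ∀ v ∈ A.gen, ∃ x, A.r x = v := by
  constructor
  · intro h
    refine ⟨h.inj, fun v hv => ?_⟩
    obtain ⟨n, hn⟩ := (mem_gen A).1 hv
    exact h.surj v (h.semisimple n v hn)
  · rintro ⟨h1, h2⟩
    refine ⟨h1, fun v hv => h2 v (gen_of_inv A hv), fun n v hv => ?_⟩
    obtain ⟨x, rfl⟩ := h2 v ((mem_gen A).2 ⟨n, hv⟩)
    exact A.inv x

end

section

variable {A B C D E : RegObj F}

theorem RegObj.Hom.comm_pow (f : A.Hom B) (n : ℕ) (x : A.V) :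
    ((B.φ - 1) ^ n) (f.v x) = f.v (((A.φ - 1) ^ n) x) := by
  induction n generalizing x with
  | zero => rfl
  | succ n ih =>
    rw [pow_succ, pow_succ]
    change ((B.φ - 1) ^ n) ((B.φ - 1) (f.v x)) = f.v (((A.φ - 1) ^ n) ((A.φ - 1) x))
    rw [B.sub_one, A.sub_one, f.comm_φ, ← map_sub, ih]

theorem RegObj.Hom.gen_mem (f : A.Hom B) {x : A.V} (hx : x ∈ A.gen) : f.v x ∈ B.gen := by
  obtain ⟨n, hn⟩ := (mem_gen A).1 hx
  refine (mem_gen B).2 ⟨n, ?_⟩
  rw [f.comm_pow, hn, map_zero]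

theorem RegObj.Hom.rest_mem (f : A.Hom B) {x : A.V} (hx : x ∈ A.rest) : f.v x ∈ B.rest := by
  unfold RegObj.rest at hx ⊢
  rw [Submodule.mem_iInf] at hx ⊢
  intro n
  obtain ⟨y, hy⟩ := hx n
  exact ⟨f.v y, by rw [f.comm_pow, hy]⟩

/-- the generalized eigenspaces form an exact functor -/
theorem gen_exact (f : A.Hom B) (g : B.Hom C) (h : Function.Exact f.v g.v) {x : B.V}
    (hx : x ∈ B.gen) (hg : g.v x = 0) : ∃ y ∈ A.gen, f.v y = x := by
  obtain ⟨a, rfl⟩ := (h x).1 hg
  obtain ⟨a₁, h1, a₂, h2, rfl⟩ := Submodule.mem_sup.1 (show a ∈ A.gen ⊔ A.rest from by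
    rw [A.isCompl.sup_eq_top]
    exact Submodule.mem_top)
  refine ⟨a₁, h1, ?_⟩
  have h3 : f.v a₂ ∈ B.gen ⊓ B.rest := by
    refine ⟨?_, f.rest_mem h2⟩
    have h4 := Submodule.sub_mem _ hx (f.gen_mem h1)
    rwa [map_add, add_sub_cancel_left] at h4
  rw [B.isCompl.inf_eq_bot, Submodule.mem_bot] at h3
  rw [map_add, h3, add_zero]

/-- the five lemma -/
theorem five (f : A.Hom B) (g : B.Hom C) (h : C.Hom D) (k : D.Hom E) (e1 : RegObj.Exact f g)
    (e2 : RegObj.Exact g h) (e3 : RegObj.Exact h k) (hA : A.TB) (hB : B.TB) (hD : D.TB)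
    (hE : E.TB) : C.TB := by
  rw [tb_iff] at *
  constructor
  · rw [injective_iff_map_eq_zero]
    intro c hc
    have h1 : h.m c = 0 := by
      apply hD.1
      rw [h.comm_r, hc, map_zero, map_zero]
    obtain ⟨b, rfl⟩ := (e2.1 c).1 h1
    rw [g.comm_r] at hc
    obtain ⟨a, ha, hab⟩ := gen_exact f g e1.2 (r_mem B b) hc
    obtain ⟨a', rfl⟩ := hA.2 a ha
    have h2 : f.m a' = b := by
      apply hB.1
      rw [f.comm_r, hab]
    rw [← h2]
    exact (e1.1 _).2 ⟨a', rfl⟩
  · intro v hv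
    obtain ⟨d, hd⟩ := hD.2 _ (h.gen_mem hv)
    have h1 : k.m d = 0 := by
      apply hE.1
      rw [k.comm_r, hd, map_zero]
      exact (e3.2 _).2 ⟨v, rfl⟩
    obtain ⟨c, rfl⟩ := (e3.1 d).1 h1
    have h2 : h.v (v - C.r c) = 0 := by
      rw [map_sub, ← hd, h.comm_r, sub_self]
    have h3 : v - C.r c ∈ C.gen := Submodule.sub_mem _ hv (r_mem C c)
    obtain ⟨b, hb, hbv⟩ := gen_exact g h e2.2 h3 h2
    obtain ⟨b', rfl⟩ := hB.2 b hb
    refine ⟨g.m b' + c, ?_⟩
    rw [map_add, g.comm_r, hbv, sub_add_cancel]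

theorem tb_retract (h : A.IsRetract B) (hB : B.TB) : A.TB := by
  obtain ⟨s, p, h1, h2⟩ := h
  refine ⟨?_, ?_, ?_⟩
  · intro x y hxy
    have h3 : s.m x = s.m y := by
      apply hB.inj
      rw [s.comm_r, s.comm_r, hxy]
    rw [← h1 x, ← h1 y, h3]
  · intro v hv
    obtain ⟨x, hx⟩ := hB.surj (s.v v) (by rw [s.comm_φ, hv])
    refine ⟨p.m x, ?_⟩
    rw [p.comm_r, hx, h2]
  · intro n v hv
    have h3 := hB.semisimple n (s.v v) (by rw [s.comm_pow, hv, map_zero])
    rw [s.comm_φ] at h3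
    have h4 := congrArg p.v h3
    rwa [h2, h2] at h4

end

end Pool.Agent.R904.TB
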