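import Pool.Agent.R904.TB.Defs

/-!
# The conjecture TB and trilinear forms
-/

set_option autoImplicit false

open CategoryTheory CategoryTheory.Limits AlgebraicGeometry MvPolynomial
open Pool.Agent.Y116.UV Pool.Agent.Z125.UN

namespace Pool.Agent.R904.TB

theorem RegObj.IsIso.tb_iff {F : Type} [Field F] {A B : RegObj F} (h : A.IsIso B) :
    A.TB ↔ B.TB := by
  obtain ⟨s, p, h1, h2⟩ := h
  exact ⟨tb_retract ⟨p, s, h2⟩, tb_retract ⟨s, p, h1⟩⟩

variable {k : Type} [Field k] {F : Type} [Field F] (H : Theory k F)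

theorem tb_space (n : ℕ) : H.TB (aff k (MvPolynomial (Fin n) k)) := by
  have h2 : H.TB (aff k (Jou (f1 k n))) := by
    intro i j
    have h3 := H.bundle (i - 2 * ((n + 1 - 1 : ℕ) : ℤ)) (j - ((n + 1 - 1 : ℕ) : ℤ)) k (n + 1)
      (f1 k n) (aff k k) (𝟙 _) ⟨inferInstance, range_id n⟩
    rw [sub_add_cancel, sub_add_cancel] at h3
    exact h3.tb_iff.1 (H.point _ _)
  intro i j
  exact (H.iso i j (ft_aff True) ⟨(affIso (jouOne k n)).symm⟩).tb_iff.1 (h2 i j)

/-- `TB` has the closure properties `Bnd`. -/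
theorem bnd : Bnd True fun X : Sch k => H.TB X where
  iso h e hX i j := (H.iso i j h e).tb_iff.1 (hX i j)
  total u v h ht hZ hU i j := by
    obtain ⟨a, b, d, h1, h2, h3⟩ := H.localization j u v h ht
    obtain ⟨n, rfl⟩ : ∃ n : ℤ, i = n + 1 := ⟨i - 1, by ring⟩
    exact five (d (n + 1)) (a (n + 1)) (b (n + 1)) (d n) (h3 (n + 1)) (h1 (n + 1)) (h2 n)
      (hU (n + 1 + 1) j) (hZ (n + 1) j) (hU (n + 1) j) (hZ n j)
  opened u v h ht hZ hX i j := by
    obtain ⟨a, b, d, h1, h2, h3⟩ := H.localization j u v h ht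
    obtain ⟨n, rfl⟩ : ∃ n : ℤ, i = n + 1 := ⟨i - 1, by ring⟩
    exact five (a (n + 1)) (b (n + 1)) (d n) (a n) (h1 (n + 1)) (h2 n) (h3 n)
      (hZ (n + 1) j) (hX (n + 1) j) (hZ n j) (hX n j)
  closed u v h ht hX hU i j := by
    obtain ⟨a, b, d, h1, h2, h3⟩ := H.localization j u v h ht
    exact five (b (i + 1)) (d i) (a i) (b i) (h2 i) (h3 i) (h1 i) (hX (i + 1) j) (hU (i + 1) j)
      (hX i j) (hU i j)
  space := tb_space H
  jouanolou A _ _ _ m f U t hj hr h i j :=
    (H.bundle i j A m f U t ⟨hj, hr⟩).tb_iff.2 (h _ _)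
  torus A _ _ _ h i j := tb_retract (H.torus i j A) (h _ _)
  bundle A _ _ _ m f U t hj hr h := by
    intro i j
    have h3 := H.bundle (i - 2 * ((m - 1 : ℕ) : ℤ)) (j - ((m - 1 : ℕ) : ℤ)) A m f U t ⟨hj, hr⟩
    rw [sub_add_cancel, sub_add_cancel] at h3
    exact h3.tb_iff.1 (h _ _)

/-- all separated schemes of finite type and trilinear forms -/
theorem all_iff : (∀ X : Sch k, FT True X → H.TB X) ↔
    ∀ (a b c : ℕ) (T : Fin a → Fin b → Fin c → k), H.TB (hypS T) :=
  ⟨fun h _ _ _ _ => h _ (ft_aff True), fun h X hX => universal (bnd H).toUni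
    (Set.mem_univ (0 : k)) (Set.mem_univ 1) (fun a b c T _ => h a b c T) presents_univ X hX⟩

/-- schemes of dimension at most `d` and trilinear forms -/
theorem dim_iff [PerfectField k] (d : ℕ) : (H.SmoothDim d ↔ H.Block (d + 2)) ∧
    (H.SmoothDim d ↔ ∀ X : Sch k, FT True X → topologicalKrullDim X.left ≤ d → H.TB X) := by
  have hB := bnd H
  have hs : H.SmoothDim d → ∀ X : Sch k, FT True X → topologicalKrullDim X.left ≤ d → H.TB X :=
    fun h => dim_smooth hB d fun X hX hs hn => h X hX hs hn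
  refine ⟨⟨fun h a b c T hm => ?_, fun h X hX _ hn => ?_⟩, hs, fun h X hX _ hn => h X hX hn⟩
  · have h2 : ∀ I : Ideal (MvPolynomial (Fin (d + 1)) k),
        H.TB (aff k (MvPolynomial (Fin (d + 1)) k ⧸ I)) :=
      dim_to_closed hB fun A _ _ _ hA => hs h _ (ft_aff True) (by rw [topDim_aff]; exact hA)
    exact of_block hB (fun a b c' hc' T => to_tri hB h2 a b c' hc' T) T hm
  · exact (dim_tri hB d).mpr (fun a b T => h a b (d + 2) T (Or.inr (Or.inr le_rfl))) X hX hn

theorem block_three [PerfectField k] : H.Block 3 :=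
  (dim_iff H 1).1.mp fun X hX hs hn => H.curves X hX hs (by exact_mod_cast hn)

end Pool.Agent.R904.TB
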